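import Mathlib
import Pool.Agent.Work.MP_684405_nt.WeakMW

/-!
# Definitions for the Vojta-Bombieri argument on `y ^ 2 = f x`

`ℤ[X][X]` is the ring of polynomials in two variables; the inner variable is called `x`,
the outer variable is called `x'`.
-/

set_option autoImplicit false

namespace Pool.Agent.Work.Falt

open Polynomial

/-- The `ℓ¹`-norm of a polynomial, relative to a size function on coefficients. -/
noncomputable def L1 {R : Type*} [Semiring R] (N : R → ℝ) (g : R[X]) : ℝ :=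
  ∑ i ∈ g.support, N (g.coeff i)

/-- `ℓ¹`-norm of an integer polynomial. -/
noncomputable def nrm1 (g : ℤ[X]) : ℝ := L1 (fun c : ℤ => |(c : ℝ)|) g

/-- `ℓ¹`-norm of an integer polynomial in two variables. -/
noncomputable def nrm2 (G : ℤ[X][X]) : ℝ := L1 nrm1 G

/-- The integer polynomial in two variables seen over `ℚ`. -/
noncomputable def toQ2 : ℤ[X][X] →+* ℚ[X][X] := mapRingHom (mapRingHom (Int.castRingHom ℚ))

/-- The coefficient of `X ^ i * Y ^ j` in `G (ξ + X, ζ + Y)`. -/
noncomputable def cf (G : ℚ[X][X]) (ξ ζ : ℚ) (i j : ℕ) : ℚ :=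
  (taylor ξ ((taylor (C ζ) G).coeff j)).coeff i

/-- Bounded bidegree. -/
def Bd {R : Type*} [Semiring R] (n₁ n₂ : ℕ) (G : R[X][X]) : Prop :=
  G.natDegree ≤ n₂ ∧ ∀ j, (G.coeff j).natDegree ≤ n₁

/-- The vector of elements of the ideal of the diagonal. -/
def mvec (x y x' y' : ℚ) : Fin 8 → ℚ :=
  ![y' - y, x * y' - x' * y, x ^ 2 * y' - x' ^ 2 * y, x ^ 3 * y' - x' ^ 3 * y,
    x - x', (x - x') * x ^ 2, (x - x') * x' ^ 2, (x - x') * x ^ 2 * x' ^ 2]

end Pool.Agent.Work.Falt
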