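import Pool.Agent.Work.MP_36d6be_co_helper98.Defs

/-!
# Interface: statements of the blocks (Work only; proofs go to separate files)
-/

set_option autoImplicit false

namespace Pool.Agent.Work.Falt.Interface

open Polynomial Height Filter Pool.Agent.Work.Falt
open WeierstrassCurve WeierstrassCurve.Affine WeierstrassCurve.Affine.Point
open Pool.Agent.Work.MP_684405_nt

/-- B5: Roth's lemma in two variables. -/
theorem roth_two (ε : ℝ) (hε : 0 < ε) : ∃ δ : ℝ, 0 < δ ∧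
    ∀ (r₁ r₂ : ℕ) (G : ℤ[X][X]) (p q p' q' : ℤ) (L : ℝ),
      0 < r₁ → 0 < r₂ → G ≠ 0 → Bd r₁ r₂ G → q ≠ 0 → q' ≠ 0 → IsCoprime p q → IsCoprime p' q' →
      Real.log (nrm2 G) ≤ L → (r₁ : ℝ) ≤ L → (r₂ : ℝ) ≤ δ * r₁ →
      L ≤ δ * (r₁ * Real.log (max |(p : ℝ)| |(q : ℝ)|)) →
      L ≤ δ * (r₂ * Real.log (max |(p' : ℝ)| |(q' : ℝ)|)) →
      ∃ i j : ℕ, (i : ℝ) ≤ ε * r₁ ∧ (j : ℝ) ≤ ε * r₂ ∧ cf (toQ2 G) (p / q) (p' / q') i j ≠ 0 :=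
  sorry

/-- B3: Siegel's lemma with a bound for the rank. -/
theorem siegel_rank {m n : Type*} [Fintype m] [Fintype n] (M : Matrix m n ℤ) (H : ℝ)
    (hH : 1 ≤ H) (hM : ∀ i j, |(M i j : ℝ)| ≤ H) (r : ℕ)
    (hr : (M.map (Int.cast : ℤ → ℚ)).rank ≤ r) (hrn : r < Fintype.card n) :
    ∃ x : n → ℤ, x ≠ 0 ∧ M.mulVec x = 0 ∧
      ∀ j, |(x j : ℝ)| ≤ (Fintype.card n * H) ^ ((r : ℝ) / (Fintype.card n - r)) :=
  sorry

/-- B7: the height inequality. -/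
theorem height_ineq (a b c e : ℤ) (ha : a ≠ 0) (he : e ≠ 0) : ∃ K : ℝ, ∀ x y x' y' : ℚ,
    y ^ 2 = a * x ^ 6 + b * x ^ 4 + c * x ^ 2 + e →
    y' ^ 2 = a * x' ^ 6 + b * x' ^ 4 + c * x' ^ 2 + e →
    x ^ 2 ≠ x' ^ 2 → x ≠ 0 → x' ≠ 0 →
    6 * (logHeight₁ x + logHeight₁ x')
      + logHeight₁ ((a * x ^ 2 * x' ^ 2 * (x ^ 2 + x' ^ 2) + 2 * b * x ^ 2 * x' ^ 2
          + c * (x ^ 2 + x' ^ 2) + 2 * e - 2 * y * y') / (x ^ 2 - x' ^ 2) ^ 2)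
      + logHeight₁ ((e * (x ^ 2 + x' ^ 2) + 2 * c * x ^ 2 * x' ^ 2
          + b * x ^ 2 * x' ^ 2 * (x ^ 2 + x' ^ 2) + 2 * a * x ^ 4 * x' ^ 4
          - 2 * x * x' * y * y') / (x ^ 2 - x' ^ 2) ^ 2)
      ≤ 4 * logHeight (mvec x y x' y') + K :=
  sorry

/-- B8: sequences of points in almost the same direction. -/
theorem dir_subseq (a b c : ℤ) (hab : a ≠ b) (hbc : b ≠ c) (hca : c ≠ a) :
    ∃ K : ℝ, ∀ P : ℕ → (crv (a : ℚ) b c).Point, Tendsto (fun n => hgt (P n)) atTop atTop →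
      ∀ ε : ℝ, 0 < ε → ∃ φ : ℕ → ℕ, StrictMono φ ∧ ∀ m n,
        hgt (P (φ m)) + hgt (P (φ n))
          + 2 * (1 - ε) * Real.sqrt (hgt (P (φ m)) * hgt (P (φ n))) - K
          ≤ hgt (P (φ m) + P (φ n)) :=
  sorry

/-- V: upper bound from the Vojta-Bombieri construction (blocks B1, B2, B3, B4, B5, B6). -/
theorem vojta_upper (f : ℤ[X]) (hdeg : f.natDegree ≤ 6)
    (hsq : Squarefree (f.map (Int.castRingHom ℚ))) (hd : 0 < f.natDegree) (η : ℝ) (hη : 0 < η) :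
    ∃ H₀ M : ℝ, ∀ x y x' y' : ℚ, y ^ 2 = aeval x f → y' ^ 2 = aeval x' f → y ≠ 0 → y' ≠ 0 →
      H₀ ≤ logHeight₁ x → M * logHeight₁ x ≤ logHeight₁ x' →
      logHeight (mvec x y x' y') ≤ 5 / 2 * (logHeight₁ x + logHeight₁ x')
        + (3 / 2 + η) * Real.sqrt (logHeight₁ x * logHeight₁ x') :=
  sorry

/-- F: finiteness. -/
theorem finite_F (ρ k : Fin 3 → ℚ) (hρ : ∀ i, ρ i ≠ 0) (hk : ∀ i, k i ≠ 0)
    (hd : ∀ i j, i ≠ j → ρ i * k j ≠ ρ j * k i) :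
    {x : ℚ | ∃ y : ℚ, y ^ 2 = ∏ i, (ρ i * x ^ 2 + k i)}.Finite :=
  sorry

end Pool.Agent.Work.Falt.Interface
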